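import Mathlib

set_option autoImplicit false

/-! Bi-invariant linear orders on a group (as data) and well-ordered subsets. -/

namespace Pool.Agent.CD.H1

/-- a bi-invariant linear order on a group, as data -/
structure BO (G : Type*) [Group G] where
  le : G → G → Prop
  refl' : ∀ a, le a a
  trans' : ∀ a b c, le a b → le b c → le a c
  antisymm' : ∀ a b, le a b → le b a → a = b
  total' : ∀ a b, le a b ∨ le b a
  mul_left' : ∀ c a b, le a b → le (c * a) (c * b)
  mul_right' : ∀ c a b, le a b → le (a * c) (b * c)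

variable {G : Type*} [Group G]

namespace BO

instance (o : BO G) : IsPreorder G o.le where
  refl := o.refl'
  trans := o.trans'

/-- the reversed order -/
def rev (o : BO G) : BO G where
  le a b := o.le b a
  refl' a := o.refl' a
  trans' a b c h1 h2 := o.trans' c b a h2 h1
  antisymm' a b h1 h2 := o.antisymm' a b h2 h1
  total' a b := o.total' b a
  mul_left' c a b h := o.mul_left' c b a h
  mul_right' c a b h := o.mul_right' c b a h

@[simp] theorem rev_le (o : BO G) (a b : G) : o.rev.le a b ↔ o.le b a := Iff.rfl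

@[simp] theorem rev_rev (o : BO G) : o.rev.rev = o := rfl

/-- well-ordered subsets -/
def W (o : BO G) (S : Set G) : Prop := S.PartiallyWellOrderedOn o.le

variable {o : BO G}

theorem mul_le_mul {a b c d : G} (h1 : o.le a b) (h2 : o.le c d) : o.le (a * c) (b * d) :=
  o.trans' _ _ _ (o.mul_right' c a b h1) (o.mul_left' b c d h2)

theorem inv_le_inv {a b : G} (h : o.le a b) : o.le b⁻¹ a⁻¹ := by
  have := o.mul_left' a⁻¹ a b h
  have := o.mul_right' b⁻¹ _ _ this
  simpa [mul_assoc] using this

theorem le_of_mul_left {c a b : G} (h : o.le (c * a) (c * b)) : o.le a b := by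
  have := o.mul_left' c⁻¹ _ _ h
  simpa using this

theorem le_of_mul_right {c a b : G} (h : o.le (a * c) (b * c)) : o.le a b := by
  have := o.mul_right' c⁻¹ _ _ h
  simpa [mul_assoc] using this

theorem W.mono {S T : Set G} (h : o.W T) (hS : S ⊆ T) : o.W S := Set.PartiallyWellOrderedOn.mono h hS

theorem W.union {S T : Set G} (h : o.W S) (h' : o.W T) : o.W (S ∪ T) :=
  Set.PartiallyWellOrderedOn.union h h'

theorem W_of_finite {S : Set G} (h : S.Finite) : o.W S :=
  h.partiallyWellOrderedOn

theorem W.exists_min {S : Set G} (h : o.W S) (hS : S.Nonempty) : ∃ m ∈ S, ∀ s ∈ S, o.le m s := by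
  have hw := Set.PartiallyWellOrderedOn.wellFoundedOn h
  have := WellFounded.has_min hw (s := Set.univ) ⟨⟨hS.some, hS.some_mem⟩, trivial⟩
  obtain ⟨⟨m, hm⟩, -, hmin⟩ := this
  refine ⟨m, hm, fun s hs => ?_⟩
  have := hmin ⟨s, hs⟩ trivial
  rcases o.total' m s with h' | h'
  · exact h'
  · by_contra hc
    exact this ⟨h', hc⟩

theorem W.image2_mul {S T : Set G} (hS : o.W S) (hT : o.W T) :
    o.W (Set.image2 (fun a b => a * b) S T) := by
  have h := Set.PartiallyWellOrderedOn.prod hS hT
  have := h.image_of_monotone_on (r' := o.le) (f := fun p : G × G => p.1 * p.2)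
    (fun a _ b _ hab => mul_le_mul hab.1 hab.2)
  rw [Set.image_prod] at this
  exact this

theorem W.finite_pairs {S T : Set G} (hS : o.W S) (hT : o.W T) (x : G) :
    {a : G | a ∈ S ∧ a⁻¹ * x ∈ T}.Finite := by
  by_contra hinf
  have hinf : {a : G | a ∈ S ∧ a⁻¹ * x ∈ T}.Infinite := hinf
  set u := hinf.natEmbedding with hu
  obtain ⟨g, hg⟩ := Set.PartiallyWellOrderedOn.exists_monotone_subseq hS
    (f := fun n => (u n : G)) (fun n => (u n).2.1)
  obtain ⟨m, n, hmn, hle⟩ := Set.PartiallyWellOrderedOn.exists_lt hT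
    (f := fun n => (u (g n) : G)⁻¹ * x) (fun n => (u (g n)).2.2)
  have h1 : o.le (u (g m) : G) (u (g n)) := hg m n hmn.le
  have h2 : o.le (u (g m) : G)⁻¹ (u (g n) : G)⁻¹ := le_of_mul_right hle
  have h3 : o.le (u (g n) : G) (u (g m)) := by simpa using inv_le_inv h2
  have h4 : (u (g m) : G) = u (g n) := o.antisymm' _ _ h1 h3
  have h5 : g m = g n := u.injective (Subtype.ext h4)
  exact (g.strictMono hmn).ne h5

/-- a version of Higman's lemma: products of lists of elements above one -/
theorem prod_le_of_sublistForall {l₁ l₂ : List G} (h : List.SublistForall₂ o.le l₁ l₂)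
    (h2 : ∀ x ∈ l₂, o.le 1 x) : o.le l₁.prod l₂.prod := by
  induction h with
  | @nil l =>
    simp only [List.prod_nil]
    induction l with
    | nil => exact o.refl' _
    | cons a l ih =>
      have h1 := h2 a (by simp)
      have h3 := ih (fun x hx => h2 x (by simp [hx]))
      have := mul_le_mul h1 h3
      simpa using this
  | @cons a₁ a₂ l₁ l₂ ha _ ih =>
    have h3 := ih (fun x hx => h2 x (by simp [hx]))
    simpa using mul_le_mul ha h3
  | @cons_right a l₁ l₂ _ ih =>
    have h1 := h2 a (by simp)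
    have h3 := ih (fun x hx => h2 x (by simp [hx]))
    have := mul_le_mul h1 h3
    simpa using this

theorem prod_ne_of_sublistForall {l₁ l₂ : List G} (h : List.SublistForall₂ o.le l₁ l₂)
    (h2 : ∀ x ∈ l₂, o.le 1 x ∧ x ≠ 1) (hl : l₁.length < l₂.length) : l₁.prod ≠ l₂.prod := by
  induction h with
  | @nil l =>
    cases l with
    | nil => simp at hl
    | cons a l =>
      simp only [List.prod_nil, List.prod_cons]
      intro he
      have h1 := h2 a (by simp)
      have h3 : o.le 1 l.prod := by
        have := prod_le_of_sublistForall (o := o) (l₁ := []) (l₂ := l) List.SublistForall₂.nil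
          (fun x hx => (h2 x (by simp [hx])).1)
        simpa using this
      have h4 : o.le a (a * l.prod) := by simpa using o.mul_left' a _ _ h3
      rw [← he] at h4
      exact h1.2 (o.antisymm' _ _ h4 h1.1)
  | @cons a₁ a₂ l₁ l₂ ha hs ih =>
    have h3 := ih (fun x hx => h2 x (by simp [hx])) (by simpa using hl)
    intro he
    simp only [List.prod_cons] at he
    have h4 := prod_le_of_sublistForall hs (fun x hx => (h2 x (by simp [hx])).1)
    -- a₁ * P₁ = a₂ * P₂, a₁ ≤ a₂, P₁ ≤ P₂
    have h5 : o.le (a₁ * l₁.prod) (a₁ * l₂.prod) := o.mul_left' _ _ _ h4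
    have h6 : o.le (a₁ * l₂.prod) (a₂ * l₂.prod) := o.mul_right' _ _ _ ha
    rw [← he] at h6
    have h7 := o.antisymm' _ _ h5 h6
    exact h3 (mul_left_cancel h7)
  | @cons_right a l₁ l₂ hs _ =>
    have h1 := h2 a (by simp)
    have h4 := prod_le_of_sublistForall hs (fun x hx => (h2 x (by simp [hx])).1)
    intro he
    simp only [List.prod_cons] at he
    have h5 : o.le (1 * l₂.prod) (a * l₂.prod) := o.mul_right' _ _ _ h1.1
    rw [← he] at h5
    have h5' : o.le l₂.prod l₁.prod := by simpa using h5
    have h6 := o.antisymm' _ _ h4 h5'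
    rw [h6] at he
    exact h1.2 (by simpa using he.symm)

/-- products of lists of elements of `S` -/
def lists (S : Set G) : Set (List G) := {l | ∀ x ∈ l, x ∈ S}

theorem W.lists {S : Set G} (h : o.W S) :
    (lists S).PartiallyWellOrderedOn (List.SublistForall₂ o.le) :=
  Set.PartiallyWellOrderedOn.partiallyWellOrderedOn_sublistForall₂ o.le h

theorem W.closure {S : Set G} (h : o.W S) (h1 : ∀ x ∈ S, o.le 1 x) :
    o.W (List.prod '' (BO.lists S)) :=
  h.lists.image_of_monotone_on (fun _ _ _ hb hab => prod_le_of_sublistForall hab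
    (fun x hx => h1 x (hb x hx)))

theorem W.finite_lengths {S : Set G} (h : o.W S) (h1 : ∀ x ∈ S, o.le 1 x ∧ x ≠ 1) (x : G) :
    {n : ℕ | ∃ l ∈ BO.lists S, l.length = n ∧ l.prod = x}.Finite := by
  by_contra hinf
  have hinf : {n : ℕ | ∃ l ∈ BO.lists S, l.length = n ∧ l.prod = x}.Infinite := hinf
  have key : ∀ n : ℕ, ∃ l ∈ BO.lists S, n < l.length ∧ l.prod = x := by
    intro n
    obtain ⟨m, hm, hmn⟩ := hinf.exists_gt n
    obtain ⟨l, hl, hl1, hl2⟩ := hm
    exact ⟨l, hl, by omega, hl2⟩
  choose L hL1 hL2 hL3 using key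
  -- sequence with increasing lengths
  let s : ℕ → List G := fun n => Nat.rec (L 0) (fun _ l => L l.length) n
  have hs1 : ∀ n, s n ∈ BO.lists S := by
    intro n
    cases n with
    | zero => exact hL1 0
    | succ n => exact hL1 _
  have hs3 : ∀ n, (s n).prod = x := by
    intro n
    cases n with
    | zero => exact hL3 0
    | succ n => exact hL3 _
  have hs2 : StrictMono (fun n => (s n).length) := strictMono_nat_of_lt_succ (fun n => hL2 _)
  obtain ⟨m, n, hmn, hle⟩ := Set.PartiallyWellOrderedOn.exists_lt h.lists (f := s) hs1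
  refine prod_ne_of_sublistForall hle (fun y hy => h1 y (hs1 n y hy)) (hs2 hmn) ?_
  rw [hs3, hs3]

end BO

end Pool.Agent.CD.H1
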