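import Pool.Agent.Helper1_CD.Bo

set_option autoImplicit false

/-! Malcev-Neumann series over a field on a bi-ordered group. -/

namespace Pool.Agent.CD.H1

open Function

noncomputable section

theorem exists_ne_zero_of_finsum {α M : Type*} [AddCommMonoid M] {f : α → M} (h : ∑ᶠ a, f a ≠ 0) :
    ∃ a, f a ≠ 0 := by
  by_contra hc
  push Not at hc
  apply h
  simp [hc]

/-- a series: a function with well-ordered support -/
@[ext] structure Ser (k : Type*) [Field k] {G : Type*} [Group G] (o : BO G) where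
  c : G → k
  w : o.W (support c)

namespace Ser

variable {k : Type*} [Field k] {G : Type*} [Group G] {o : BO G}

instance : Zero (Ser k o) := ⟨⟨0, by rw [support_zero]; exact BO.W_of_finite Set.finite_empty⟩⟩
instance : Add (Ser k o) := ⟨fun f g => ⟨f.c + g.c, (f.w.union g.w).mono (support_add _ _)⟩⟩
instance : Neg (Ser k o) := ⟨fun f => ⟨-f.c, by rw [support_neg]; exact f.w⟩⟩
instance : Sub (Ser k o) := ⟨fun f g => ⟨f.c - g.c, (f.w.union g.w).mono (support_sub _ _)⟩⟩
instance : SMul ℕ (Ser k o) := ⟨fun n f => ⟨n • f.c, f.w.mono (support_const_smul_subset n f.c)⟩⟩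
instance : SMul ℤ (Ser k o) := ⟨fun n f => ⟨n • f.c, f.w.mono (support_const_smul_subset n f.c)⟩⟩
instance : SMul k (Ser k o) := ⟨fun n f => ⟨n • f.c, f.w.mono (support_const_smul_subset n f.c)⟩⟩

@[simp] theorem c_zero : (0 : Ser k o).c = 0 := rfl
@[simp] theorem c_add (f g : Ser k o) : (f + g).c = f.c + g.c := rfl
@[simp] theorem c_neg (f : Ser k o) : (-f).c = -f.c := rfl
@[simp] theorem c_sub (f g : Ser k o) : (f - g).c = f.c - g.c := rfl
@[simp] theorem c_nsmul (n : ℕ) (f : Ser k o) : (n • f).c = n • f.c := rfl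
@[simp] theorem c_zsmul (n : ℤ) (f : Ser k o) : (n • f).c = n • f.c := rfl
@[simp] theorem c_smul (n : k) (f : Ser k o) : (n • f).c = n • f.c := rfl

theorem c_injective : Injective (Ser.c : Ser k o → G → k) := fun _ _ h => Ser.ext h

instance : AddCommGroup (Ser k o) :=
  c_injective.addCommGroup _ c_zero c_add c_neg c_sub (fun f n => c_nsmul n f) (fun f n => c_zsmul n f)

instance : Module k (Ser k o) :=
  c_injective.module k ⟨⟨Ser.c, c_zero⟩, c_add⟩ c_smul

/-- coefficient as additive map -/
@[simps] def cHom (g : G) : Ser k o →+ k where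
  toFun f := f.c g
  map_zero' := rfl
  map_add' _ _ := rfl

theorem fin_mul (f g : Ser k o) (x : G) : (support fun a => f.c a * g.c (a⁻¹ * x)).Finite := by
  refine (f.w.finite_pairs g.w x).subset ?_
  intro a ha
  have ha : f.c a * g.c (a⁻¹ * x) ≠ 0 := ha
  exact ⟨left_ne_zero_of_mul ha, right_ne_zero_of_mul ha⟩

instance : Mul (Ser k o) := ⟨fun f g => ⟨fun x => ∑ᶠ a, f.c a * g.c (a⁻¹ * x), by
  refine (f.w.image2_mul g.w).mono ?_
  intro x hx
  have hx : ∑ᶠ a, f.c a * g.c (a⁻¹ * x) ≠ 0 := hx
  obtain ⟨a, ha⟩ := exists_ne_zero_of_finsum hx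
  exact ⟨a, left_ne_zero_of_mul ha, a⁻¹ * x, right_ne_zero_of_mul ha, by simp⟩⟩⟩

theorem c_mul (f g : Ser k o) (x : G) : (f * g).c x = ∑ᶠ a, f.c a * g.c (a⁻¹ * x) := rfl

theorem support_mul_subset (f g : Ser k o) :
    support (f * g).c ⊆ Set.image2 (fun a b => a * b) (support f.c) (support g.c) := by
  intro x hx
  have hx : ∑ᶠ a, f.c a * g.c (a⁻¹ * x) ≠ 0 := hx
  obtain ⟨a, ha⟩ := exists_ne_zero_of_finsum hx
  exact ⟨a, left_ne_zero_of_mul ha, a⁻¹ * x, right_ne_zero_of_mul ha, by simp⟩

theorem c_mul' (f g : Ser k o) (x : G) : (f * g).c x = ∑ᶠ b, f.c (x * b⁻¹) * g.c b := by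
  rw [c_mul]
  rw [← finsum_comp_equiv ((Equiv.inv G).trans (Equiv.mulLeft x))]
  refine finsum_congr fun b => ?_
  simp

/-- monomial -/
def single (g : G) (r : k) : Ser k o where
  c := by classical exact fun x => if x = g then r else 0
  w := by
    classical
    refine BO.W_of_finite ((Set.finite_singleton g).subset ?_)
    intro x hx
    by_contra h
    exact hx (if_neg h)

theorem c_single (g : G) (r : k) (x : G) [Decidable (x = g)] :
    (single g r : Ser k o).c x = if x = g then r else 0 := by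
  unfold single
  by_cases h : x = g <;> simp [h]

@[simp] theorem c_single_self (g : G) (r : k) : (single g r : Ser k o).c g = r := by
  classical simp [c_single]

theorem c_single_ne {g x : G} (r : k) (h : x ≠ g) : (single g r : Ser k o).c x = 0 := by
  classical simp [c_single, h]

@[simp] theorem single_zero (g : G) : (single g (0 : k) : Ser k o) = 0 := by
  classical
  ext x
  simp [c_single]

theorem single_ne_zero {g : G} {r : k} (h : r ≠ 0) : (single g r : Ser k o) ≠ 0 := by
  intro hc
  have := congrArg (fun f => f.c g) hc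
  simp at this
  exact h this

theorem c_single_mul (g : G) (r : k) (f : Ser k o) (x : G) :
    (single g r * f).c x = r * f.c (g⁻¹ * x) := by
  classical
  rw [c_mul, finsum_eq_single _ g]
  · simp
  · intro a ha
    rw [c_single_ne r ha, zero_mul]

theorem c_mul_single (g : G) (r : k) (f : Ser k o) (x : G) :
    (f * single g r).c x = f.c (x * g⁻¹) * r := by
  classical
  rw [c_mul', finsum_eq_single _ g]
  · simp
  · intro a ha
    rw [c_single_ne r ha, mul_zero]

instance : One (Ser k o) := ⟨single 1 1⟩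

theorem one_def : (1 : Ser k o) = single 1 1 := rfl

theorem single_mul_single (g h : G) (r s : k) :
    (single g r * single h s : Ser k o) = single (g * h) (r * s) := by
  classical
  ext x
  rw [c_single_mul, c_single, c_single]
  by_cases hx : x = g * h
  · simp [hx]
  · have : g⁻¹ * x ≠ h := fun h' => hx (by rw [← h']; simp)
    simp [hx, this]

protected theorem mul_assoc (f g h : Ser k o) : f * g * h = f * (g * h) := by
  ext x
  have hfin : (support fun p : G × G => f.c p.1 * (g.c (p.1⁻¹ * p.2) * h.c (p.2⁻¹ * x))).Finite := by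
    have h1 : {b : G | b ∈ Set.image2 (fun a b => a * b) (support f.c) (support g.c) ∧
        b⁻¹ * x ∈ support h.c}.Finite := (f.w.image2_mul g.w).finite_pairs h.w x
    have h2 : (⋃ b ∈ {b : G | b ∈ Set.image2 (fun a b => a * b) (support f.c) (support g.c) ∧
        b⁻¹ * x ∈ support h.c}, (fun a => (a, b)) '' {a : G | a ∈ support f.c ∧
        a⁻¹ * b ∈ support g.c}).Finite :=
      h1.biUnion fun b _ => (f.w.finite_pairs g.w b).image _
    refine h2.subset ?_
    rintro ⟨a, b⟩ hab
    have hab : f.c a * (g.c (a⁻¹ * b) * h.c (b⁻¹ * x)) ≠ 0 := hab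
    have ha := left_ne_zero_of_mul hab
    have hb := left_ne_zero_of_mul (right_ne_zero_of_mul hab)
    have hc := right_ne_zero_of_mul (right_ne_zero_of_mul hab)
    simp only [Set.mem_iUnion, Set.mem_image]
    exact ⟨b, ⟨⟨a, ha, a⁻¹ * b, hb, by simp⟩, hc⟩, a, ⟨ha, hb⟩, rfl⟩
  have hfin' : (support fun p : G × G => f.c p.2 * (g.c (p.2⁻¹ * p.1) * h.c (p.1⁻¹ * x))).Finite := by
    refine (hfin.image Prod.swap).subset ?_
    rintro ⟨b, a⟩ hab
    exact ⟨(a, b), hab, rfl⟩
  calc (f * g * h).c x
      = ∑ᶠ b, (∑ᶠ a, f.c a * g.c (a⁻¹ * b)) * h.c (b⁻¹ * x) := rfl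
    _ = ∑ᶠ b, ∑ᶠ a, f.c a * (g.c (a⁻¹ * b) * h.c (b⁻¹ * x)) := by
        refine finsum_congr fun b => ?_
        rw [finsum_mul]
        refine finsum_congr fun a => ?_
        rw [mul_assoc]
    _ = ∑ᶠ p : G × G, f.c p.2 * (g.c (p.2⁻¹ * p.1) * h.c (p.1⁻¹ * x)) :=
        (finsum_curry _ hfin').symm
    _ = ∑ᶠ p : G × G, f.c p.1 * (g.c (p.1⁻¹ * p.2) * h.c (p.2⁻¹ * x)) := by
        rw [← finsum_comp_equiv (Equiv.prodComm G G)]
        rfl
    _ = ∑ᶠ a, ∑ᶠ b, f.c a * (g.c (a⁻¹ * b) * h.c (b⁻¹ * x)) := finsum_curry _ hfin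
    _ = ∑ᶠ a, f.c a * (g * h).c (a⁻¹ * x) := by
        refine finsum_congr fun a => ?_
        rw [← mul_finsum]
        congr 1
        have h3 := finsum_comp_equiv (Equiv.mulLeft a⁻¹)
          (f := fun c => g.c c * h.c (c⁻¹ * (a⁻¹ * x)))
        rw [c_mul, ← h3]
        refine finsum_congr fun b => ?_
        simp [mul_assoc]
    _ = (f * (g * h)).c x := rfl

instance : Ring (Ser k o) where
  left_distrib f g h := by
    ext x
    simp only [c_mul, c_add, Pi.add_apply, mul_add]
    exact finsum_add_distrib (fin_mul f g x) (fin_mul f h x)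
  right_distrib f g h := by
    ext x
    simp only [c_mul, c_add, Pi.add_apply, add_mul]
    exact finsum_add_distrib (fin_mul f h x) (fin_mul g h x)
  zero_mul f := by ext x; simp [c_mul]
  mul_zero f := by ext x; simp [c_mul]
  mul_assoc := Ser.mul_assoc
  one_mul f := by ext x; simp [one_def, c_single_mul]
  mul_one f := by ext x; simp [one_def, c_mul_single]
  neg_add_cancel := neg_add_cancel
  zsmul := fun n f => n • f
  zsmul_zero' := SubNegMonoid.zsmul_zero'
  zsmul_succ' := SubNegMonoid.zsmul_succ'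
  zsmul_neg' := SubNegMonoid.zsmul_neg'
  sub_eq_add_neg := sub_eq_add_neg

instance : Nontrivial (Ser k o) := ⟨⟨0, 1, fun h => single_ne_zero (one_ne_zero (α := k)) h.symm⟩⟩

theorem smul_mul_assoc' (r : k) (f g : Ser k o) : (r • f) * g = r • (f * g) := by
  ext x
  simp only [c_mul, c_smul, Pi.smul_apply, smul_eq_mul, mul_assoc]
  rw [mul_finsum]

theorem mul_smul_comm' (r : k) (f g : Ser k o) : f * (r • g) = r • (f * g) := by
  ext x
  simp only [c_mul, c_smul, Pi.smul_apply, smul_eq_mul]
  rw [mul_finsum]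
  refine finsum_congr fun a => ?_
  ring

instance : Algebra k (Ser k o) := Algebra.ofModule smul_mul_assoc' mul_smul_comm'

/-! ### inverses -/

section inv

theorem support_pow_subset (e : Ser k o) (n : ℕ) :
    support (e ^ n).c ⊆ {x | ∃ l ∈ BO.lists (support e.c), l.length = n ∧ l.prod = x} := by
  classical
  induction n with
  | zero =>
    intro x hx
    rw [pow_zero, one_def] at hx
    have : x = 1 := by
      by_contra h
      exact hx (c_single_ne _ h)
    exact ⟨[], by simp [BO.lists], rfl, by simp [this]⟩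
  | succ n ih =>
    intro x hx
    rw [pow_succ'] at hx
    obtain ⟨a, ha, b, hb, hab⟩ := support_mul_subset _ _ hx
    obtain ⟨l, hl, hl1, hl2⟩ := ih hb
    refine ⟨a :: l, ?_, by simp [hl1], by simp only [List.prod_cons, hl2]; exact hab⟩
    intro y hy
    rcases List.mem_cons.1 hy with rfl | hy
    · exact ha
    · exact hl y hy

variable (e : Ser k o) (he : ∀ x ∈ support e.c, o.le 1 x ∧ x ≠ 1)

include he

theorem fin_pow (x : G) : {n : ℕ | (e ^ n).c x ≠ 0}.Finite := by
  refine (e.w.finite_lengths he x).subset ?_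
  intro n hn
  exact support_pow_subset e n hn

/-- the geometric series -/
noncomputable def geom : Ser k o where
  c x := ∑ᶠ n : ℕ, (e ^ n).c x
  w := by
    refine (e.w.closure fun x hx => (he x hx).1).mono ?_
    intro x hx
    have hx : ∑ᶠ n : ℕ, (e ^ n).c x ≠ 0 := hx
    obtain ⟨n, hn⟩ := exists_ne_zero_of_finsum hx
    obtain ⟨l, hl, -, hl2⟩ := support_pow_subset e n hn
    exact ⟨l, hl, hl2⟩

theorem fin_pow_mul (x : G) :
    (support fun p : G × ℕ => e.c p.1 * (e ^ p.2).c (p.1⁻¹ * x)).Finite := by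
  have h1 := e.w.finite_lengths he x
  have h2 : (⋃ n ∈ {n : ℕ | ∃ l ∈ BO.lists (support e.c), l.length = n ∧ l.prod = x},
      (fun a => (a, n - 1)) '' {a : G | a ∈ support e.c ∧ a⁻¹ * x ∈ support (e ^ (n - 1)).c}).Finite :=
    h1.biUnion fun n _ => (e.w.finite_pairs (e ^ (n - 1)).w x).image _
  refine h2.subset ?_
  rintro ⟨a, n⟩ han
  have han : e.c a * (e ^ n).c (a⁻¹ * x) ≠ 0 := han
  have ha := left_ne_zero_of_mul han
  have hb := right_ne_zero_of_mul han
  obtain ⟨l, hl, hl1, hl2⟩ := support_pow_subset e n hb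
  simp only [Set.mem_iUnion, Set.mem_image]
  refine ⟨n + 1, ⟨a :: l, ?_, by simp [hl1], by simp [hl2]⟩, a, ⟨ha, ?_⟩, by simp⟩
  · intro y hy
    rcases List.mem_cons.1 hy with rfl | hy
    · exact ha
    · exact hl y hy
  · simpa using hb

theorem fin_pow_mul' (x : G) :
    (support fun p : G × ℕ => (e ^ p.2).c (x * p.1⁻¹) * e.c p.1).Finite := by
  have h1 := e.w.finite_lengths he x
  have h2 : (⋃ n ∈ {n : ℕ | ∃ l ∈ BO.lists (support e.c), l.length = n ∧ l.prod = x},
      (fun a => (a⁻¹ * x, n - 1)) '' {a : G | a ∈ support (e ^ (n - 1)).c ∧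
        a⁻¹ * x ∈ support e.c}).Finite :=
    h1.biUnion fun n _ => ((e ^ (n - 1)).w.finite_pairs e.w x).image _
  refine h2.subset ?_
  rintro ⟨a, n⟩ han
  have han : (e ^ n).c (x * a⁻¹) * e.c a ≠ 0 := han
  have ha := right_ne_zero_of_mul han
  have hb := left_ne_zero_of_mul han
  obtain ⟨l, hl, hl1, hl2⟩ := support_pow_subset e n hb
  simp only [Set.mem_iUnion, Set.mem_image]
  refine ⟨n + 1, ⟨l ++ [a], ?_, by simp [hl1], by simp [hl2]⟩, x * a⁻¹, ⟨by simpa using hb, ?_⟩,
    by simp⟩
  · intro y hy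
    rcases List.mem_append.1 hy with hy | hy
    · exact hl y hy
    · rw [List.mem_singleton.1 hy]
      exact ha
  · simpa using ha

theorem c_geom (x : G) : (geom e he).c x = ∑ᶠ n : ℕ, (e ^ n).c x := rfl

theorem c_geom_succ (x : G) : (geom e he).c x = (1 : Ser k o).c x + ∑ᶠ n : ℕ, (e ^ (n + 1)).c x := by
  have h1 : (support fun n : ℕ => (e ^ n).c x).Finite := fin_pow e he x
  rw [c_geom]
  have h2 : (support fun n : ℕ => if n = 0 then (1 : Ser k o).c x else 0).Finite :=
    (Set.finite_singleton 0).subset fun n hn => by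
      by_contra h
      exact hn (if_neg h)
  have h3 : (support fun n : ℕ => if n = 0 then 0 else (e ^ n).c x).Finite :=
    h1.subset fun n hn => by
      simp only [mem_support, ne_eq, ite_eq_left_iff, Classical.not_imp] at hn
      exact hn.2
  have h4 : (∑ᶠ n : ℕ, (e ^ n).c x) = ∑ᶠ n : ℕ, ((if n = 0 then (1 : Ser k o).c x else 0) +
      (if n = 0 then 0 else (e ^ n).c x)) := by
    refine finsum_congr fun n => ?_
    by_cases hn : n = 0 <;> simp [hn]
  rw [h4, finsum_add_distrib h2 h3]
  congr 1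
  · rw [finsum_eq_single _ 0]
    · simp
    · intro n hn
      simp [hn]
  · -- reindex
    have h5 : (∑ᶠ n : ℕ, (if n = 0 then 0 else (e ^ n).c x)) =
        ∑ᶠ n ∈ Set.range Nat.succ, (e ^ n).c x := by
      classical
      refine finsum_congr fun n => ?_
      rw [finsum_eq_if]
      cases n with
      | zero => simp
      | succ n => simp
    rw [h5, finsum_mem_range Nat.succ_injective]

theorem mul_geom : e * geom e he = geom e he - 1 := by
  ext x
  rw [c_sub, Pi.sub_apply, c_geom_succ, add_sub_cancel_left, c_mul]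
  simp only [c_geom, mul_finsum]
  have h1 := fin_pow_mul e he x
  rw [← finsum_curry (fun p : G × ℕ => e.c p.1 * (e ^ p.2).c (p.1⁻¹ * x)) h1,
    ← finsum_comp_equiv (Equiv.prodComm ℕ G)]
  have h2 : (support fun p : ℕ × G => (fun p : G × ℕ => e.c p.1 * (e ^ p.2).c (p.1⁻¹ * x))
      ((Equiv.prodComm ℕ G) p)).Finite := by
    refine (h1.image Prod.swap).subset ?_
    rintro ⟨n, a⟩ ha
    exact ⟨(a, n), ha, rfl⟩
  rw [finsum_curry _ h2]
  refine finsum_congr fun n => ?_
  rw [pow_succ', c_mul]
  rfl

theorem geom_mul : geom e he * e = geom e he - 1 := by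
  ext x
  rw [c_sub, Pi.sub_apply, c_geom_succ, add_sub_cancel_left, c_mul']
  simp only [c_geom, finsum_mul]
  have h1 := fin_pow_mul' e he x
  rw [← finsum_curry (fun p : G × ℕ => (e ^ p.2).c (x * p.1⁻¹) * e.c p.1) h1,
    ← finsum_comp_equiv (Equiv.prodComm ℕ G)]
  have h2 : (support fun p : ℕ × G => (fun p : G × ℕ => (e ^ p.2).c (x * p.1⁻¹) * e.c p.1)
      ((Equiv.prodComm ℕ G) p)).Finite := by
    refine (h1.image Prod.swap).subset ?_
    rintro ⟨n, a⟩ ha
    exact ⟨(a, n), ha, rfl⟩
  rw [finsum_curry _ h2]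
  refine finsum_congr fun n => ?_
  rw [pow_succ, c_mul']
  rfl

theorem isUnit_one_sub : IsUnit (1 - e) := by
  refine ⟨⟨1 - e, geom e he, ?_, ?_⟩, rfl⟩
  · rw [sub_mul, one_mul, mul_geom]
    abel
  · rw [mul_sub, mul_one, geom_mul]
    abel

end inv

theorem isUnit_single {g : G} {r : k} (hr : r ≠ 0) : IsUnit (single g r : Ser k o) := by
  refine ⟨⟨single g r, single g⁻¹ r⁻¹, ?_, ?_⟩, rfl⟩
  · rw [single_mul_single, mul_inv_cancel, mul_inv_cancel₀ hr]
    rfl
  · rw [single_mul_single, inv_mul_cancel, inv_mul_cancel₀ hr]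
    rfl

theorem isUnit_of_ne_zero {f : Ser k o} (hf : f ≠ 0) : IsUnit f := by
  classical
  have hne : (support f.c).Nonempty := by
    rw [Set.nonempty_iff_ne_empty]
    intro h
    apply hf
    ext x
    have : x ∉ support f.c := by rw [h]; simp
    simpa using this
  obtain ⟨m, hm, hmin⟩ := f.w.exists_min hne
  have hm' : f.c m ≠ 0 := hm
  -- f = single m (f.c m) * (1 - e)
  set e : Ser k o := 1 - single m⁻¹ (f.c m)⁻¹ * f with he
  have hes : ∀ x ∈ support e.c, o.le 1 x ∧ x ≠ 1 := by
    intro x hx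
    have hx1 : e.c x = (1 : Ser k o).c x - (f.c m)⁻¹ * f.c (m * x) := by
      rw [he, c_sub, Pi.sub_apply, c_single_mul, inv_inv]
    have hx1' : x ≠ 1 := by
      rintro rfl
      apply hx
      rw [hx1, one_def, c_single_self, mul_one, inv_mul_cancel₀ hm', sub_self]
    refine ⟨?_, hx1'⟩
    have h2 : f.c (m * x) ≠ 0 := by
      intro h0
      apply hx
      rw [hx1, one_def, c_single_ne _ hx1', h0]
      simp
    have h3 := hmin _ h2
    have h4 : o.le (m * 1) (m * x) := by simpa using h3
    exact BO.le_of_mul_left h4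
  have h1 : f = single m (f.c m) * (1 - e) := by
    rw [he, sub_sub_cancel, ← mul_assoc, single_mul_single, mul_inv_cancel, mul_inv_cancel₀ hm']
    exact (one_mul f).symm
  rw [h1]
  exact (isUnit_single hm').mul (isUnit_one_sub e hes)

noncomputable instance : DivisionRing (Ser k o) :=
  DivisionRing.ofIsUnitOrEqZero fun f => by
    by_cases hf : f = 0
    · exact Or.inr hf
    · exact Or.inl (isUnit_of_ne_zero hf)

/-- the group inside the units -/
def ofG (o : BO G) (k : Type*) [Field k] : G →* Ser k o where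
  toFun g := single g 1
  map_one' := rfl
  map_mul' g h := by rw [single_mul_single, one_mul]

theorem ofG_apply (g : G) : ofG o k g = single g 1 := rfl

@[simp] theorem c_ofG_mul (g : G) (f : Ser k o) (x : G) : (ofG o k g * f).c x = f.c (g⁻¹ * x) := by
  rw [ofG_apply, c_single_mul, one_mul]

@[simp] theorem c_mul_ofG (g : G) (f : Ser k o) (x : G) : (f * ofG o k g).c x = f.c (x * g⁻¹) := by
  rw [ofG_apply, c_mul_single, mul_one]

theorem ofG_ne_zero (g : G) : ofG o k g ≠ 0 := single_ne_zero one_ne_zero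

/-- the group algebra inside the series -/
noncomputable def ofMA (o : BO G) (k : Type*) [Field k] : MonoidAlgebra k G →ₐ[k] Ser k o :=
  MonoidAlgebra.lift k (Ser k o) G (ofG o k)

theorem ofMA_single (g : G) (r : k) : ofMA o k (MonoidAlgebra.single g r) = single g r := by
  rw [ofMA, MonoidAlgebra.lift_single]
  ext x
  classical
  simp [ofG_apply, c_single]

theorem c_ofMA (f : MonoidAlgebra k G) (x : G) : (ofMA o k f).c x = f.coeff x := by
  classical
  induction f using MonoidAlgebra.induction_linear with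
  | zero => simp
  | add f g hf hg => rw [map_add, c_add, Pi.add_apply, hf, hg]; rfl
  | single g r =>
    rw [ofMA_single, c_single, show (MonoidAlgebra.single g r).coeff x = if g = x then r else 0 from Finsupp.single_apply]
    by_cases h : x = g
    · simp [h]
    · have : g ≠ x := fun h' => h h'.symm
      simp [h, this]

theorem ofMA_injective : Injective (ofMA o k) := by
  intro f g h
  refine MonoidAlgebra.ext (Finsupp.ext fun x => ?_)
  rw [← c_ofMA (o := o), ← c_ofMA (o := o), h]

/-! ### the anti-isomorphism with the reversed order -/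

/-- `f*(g) = f(g⁻¹)` -/
def star (f : Ser k o) : Ser k o.rev where
  c x := f.c x⁻¹
  w := by
    have h : support (fun x => f.c x⁻¹) = Inv.inv '' (support f.c) := by
      ext x
      simp only [mem_support, ne_eq, Set.image_inv_eq_inv, Set.mem_inv]
    rw [h]
    exact f.w.image_of_monotone_on (fun a _ b _ hab => BO.inv_le_inv hab)

@[simp] theorem c_star (f : Ser k o) (x : G) : (star f).c x = f.c x⁻¹ := rfl

theorem star_star (f : Ser k o) : (star (star f) : Ser k o) = f := by
  ext x
  simp

theorem star_mul (f g : Ser k o) : star (f * g) = star g * star f := by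
  ext x
  rw [c_star, c_mul, c_mul', ← finsum_comp_equiv (Equiv.inv G)]
  refine finsum_congr fun a => ?_
  simp only [Equiv.inv_apply, inv_inv, c_star, mul_inv_rev]
  rw [mul_comm]

/-- the anti-isomorphism -/
def starEquiv (o : BO G) (k : Type*) [Field k] : Ser k o ≃+* (Ser k o.rev)ᵐᵒᵖ where
  toFun f := MulOpposite.op (star f)
  invFun f := star f.unop
  left_inv f := star_star f
  right_inv f := by
    have : star (star f.unop : Ser k o) = f.unop := by
      ext x
      exact congrArg f.unop.c (inv_inv x)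
    exact congrArg MulOpposite.op this
  map_mul' f g := by rw [star_mul]; rfl
  map_add' f g := rfl

/-! ### restriction to subsets -/

/-- restriction of the support to a subset -/
def res (S : Set G) : Ser k o →+ Ser k o where
  toFun f := ⟨S.indicator f.c, f.w.mono (by
      intro x hx
      rw [Set.support_indicator] at hx
      exact hx.2)⟩
  map_zero' := by ext x; simp
  map_add' f g := by
    ext x
    exact congrFun (Set.indicator_add S f.c g.c) x

theorem c_res (S : Set G) (f : Ser k o) : (res S f).c = S.indicator f.c := rfl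

end Ser

end

end Pool.Agent.CD.H1
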